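import Pool.Agent.SumProd339.Isolated

set_option autoImplicit false

/-!
# Tame minimal-norm solutions satisfy the bound `2^(2^(n-2))`
-/

namespace Pool.Agent.Results.MP_e336e1_al.TameMinimalNorm

open Pool.Agent.SumProd339

lemma zero_sol {n : ℕ} (T : Set (Eqn n)) (h : ∀ i, Eqn.one i ∉ T) : IsSol T (fun _ => 0) := by
  intro e he
  cases e with
  | one j => exact absurd he (h j)
  | add j k l => simp [Eqn.Holds]
  | mul j k l => simp [Eqn.Holds]

lemma nat_bound : ∀ k : ℕ, k + 2 ≤ 2 ^ 2 ^ k := by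
  intro k
  induction k with
  | zero => norm_num
  | succ k ih =>
    have h1 : 2 ^ 2 ^ (k + 1) = (2 ^ 2 ^ k) * (2 ^ 2 ^ k) := by
      rw [← pow_add]
      congr 1
      ring
    rw [h1]
    nlinarith

/-- Let `x` be a solution of the system `T ⊆ E_n` whose Euclidean norm is at most that of every
solution of the form `(c_1 x_1, …, c_n x_n)` with real `c_i` (in particular a minimal-norm solution
in `ℂⁿ`, or a real minimal-norm solution among the real ones).  If `x` is tame for `T` then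
`|x_i| ≤ 2^(2^(n-2))`. -/
theorem result (n : ℕ) (T : Set (Eqn n)) (x : Fin n → ℂ) (hx : IsSol T x)
    (hmin : ∀ c : Fin n → ℝ, IsSol T (fun i => (c i : ℂ) * x i) →
      ∑ i, ‖x i‖ ^ 2 ≤ ∑ i, ‖(c i : ℂ) * x i‖ ^ 2)
    (ht : Tame T x) (m : Fin n) :
    ‖x m‖ ≤ (2 : ℝ) ^ ((2 : ℝ) ^ ((n : ℝ) - 2)) := by
  classical
  have hle : ‖x m‖ ^ 2 ≤ ∑ i, ‖x i‖ ^ 2 :=
    Finset.single_le_sum (f := fun i => ‖x i‖ ^ 2) (fun i _ => by positivity) (Finset.mem_univ m)
  by_cases hone : ∃ i₁, Eqn.one i₁ ∈ T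
  · obtain ⟨i₁, h1⟩ := hone
    obtain ⟨w, U, hsol, hU, hUone, hspan, hor⟩ := exists_move T x hx ht
    have ecomm : (fun i => ((Real.exp (w i) : ℝ) : ℂ) * x i) =
        fun i => x i * ((Real.exp (w i) : ℝ) : ℂ) := funext fun i => mul_comm _ _
    have hmin' : ∑ i, ‖x i‖ ^ 2 ≤ ∑ i, ‖x i * ((Real.exp (w i) : ℝ) : ℂ)‖ ^ 2 := by
      have h := hmin (fun i => Real.exp (w i)) (by rw [ecomm]; exact hsol)
      refine le_trans h (le_of_eq ?_)
      exact Finset.sum_congr rfl fun i _ => by rw [mul_comm]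
    rcases hor with ⟨i₂, hi₂⟩ | hspan'
    · have hne : i₁ ≠ i₂ := by
        rintro rfl
        exact hUone _ hi₂ h1
      have hcard : (({i₁, i₂} : Finset (Fin n)).card : ℝ) = 2 := by
        rw [Finset.card_pair hne]
        norm_num
      have hy : ∀ i, ‖x i * ((Real.exp (w i) : ℝ) : ℂ)‖ ≤
          (2 : ℝ) ^ ((2 : ℝ) ^ ((n : ℝ) - 3)) := by
        intro i
        have h := lead_bound T _ hsol U hU {i₁, i₂} (by
          intro j hj
          simp only [Finset.mem_insert, Finset.mem_singleton] at hj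
          rcases hj with rfl | rfl
          · exact Or.inr h1
          · exact Or.inl hi₂) hspan i
        have e : (n : ℝ) - (({i₁, i₂} : Finset (Fin n)).card : ℝ) - 1 = (n : ℝ) - 3 := by
          rw [hcard]
          ring
        rw [e] at h
        exact h
      have hn : 2 ≤ n := by
        have := Finset.card_le_univ ({i₁, i₂} : Finset (Fin n))
        rw [Finset.card_pair hne, Fintype.card_fin] at this
        exact this
      obtain ⟨k, rfl⟩ := Nat.exists_eq_add_of_le hn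
      have hsum : ∑ i : Fin (2 + k), ‖x i * ((Real.exp (w i) : ℝ) : ℂ)‖ ^ 2 ≤
          ((2 + k : ℕ) : ℝ) * (2 : ℝ) ^ ((2 : ℝ) ^ (((2 + k : ℕ) : ℝ) - 2)) := by
        calc ∑ i : Fin (2 + k), ‖x i * ((Real.exp (w i) : ℝ) : ℂ)‖ ^ 2
            ≤ ∑ _i : Fin (2 + k), (2 : ℝ) ^ ((2 : ℝ) ^ (((2 + k : ℕ) : ℝ) - 2)) := by
              apply Finset.sum_le_sum
              intro i _
              have h2 : ‖x i * ((Real.exp (w i) : ℝ) : ℂ)‖ ^ 2 ≤
                  ((2 : ℝ) ^ ((2 : ℝ) ^ (((2 + k : ℕ) : ℝ) - 3))) ^ 2 :=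
                pow_le_pow_left₀ (norm_nonneg _) (hy i) 2
              refine le_trans h2 (le_of_eq ?_)
              rw [← Real.rpow_natCast, ← Real.rpow_mul (by norm_num)]
              congr 1
              have e3 : (((2 + k : ℕ) : ℝ) - 2) = (((2 + k : ℕ) : ℝ) - 3) + 1 := by ring
              rw [e3, Real.rpow_add (by norm_num), Real.rpow_one]
              norm_num
          _ = ((2 + k : ℕ) : ℝ) * (2 : ℝ) ^ ((2 : ℝ) ^ (((2 + k : ℕ) : ℝ) - 2)) := by
              rw [Finset.sum_const, Finset.card_univ, Fintype.card_fin, nsmul_eq_mul]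
      have hk : (((2 + k : ℕ) : ℝ) - 2) = (k : ℝ) := by
        push_cast
        ring
      rw [hk] at hsum ⊢
      have hB : (2 : ℝ) ^ ((2 : ℝ) ^ (k : ℝ)) = (2 : ℝ) ^ (2 ^ k : ℕ) := by
        rw [← Real.rpow_natCast]
        congr 1
        push_cast
        rw [Real.rpow_natCast]
      have hbig : ((2 + k : ℕ) : ℝ) ≤ (2 : ℝ) ^ ((2 : ℝ) ^ (k : ℝ)) := by
        rw [hB]
        have := nat_bound k
        have h3 : 2 + k ≤ 2 ^ 2 ^ k := by omega
        exact_mod_cast h3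
      have hpos : (0 : ℝ) ≤ (2 : ℝ) ^ ((2 : ℝ) ^ (k : ℝ)) := by positivity
      have hfin : ‖x m‖ ^ 2 ≤ ((2 : ℝ) ^ ((2 : ℝ) ^ (k : ℝ))) ^ 2 := by
        calc ‖x m‖ ^ 2 ≤ ∑ i, ‖x i‖ ^ 2 := hle
          _ ≤ ∑ i : Fin (2 + k), ‖x i * ((Real.exp (w i) : ℝ) : ℂ)‖ ^ 2 := hmin'
          _ ≤ ((2 + k : ℕ) : ℝ) * (2 : ℝ) ^ ((2 : ℝ) ^ (k : ℝ)) := hsum
          _ ≤ (2 : ℝ) ^ ((2 : ℝ) ^ (k : ℝ)) * (2 : ℝ) ^ ((2 : ℝ) ^ (k : ℝ)) :=
              mul_le_mul_of_nonneg_right hbig hpos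
          _ = ((2 : ℝ) ^ ((2 : ℝ) ^ (k : ℝ))) ^ 2 := by ring
      exact (abs_le_of_sq_le_sq' hfin hpos).2
    · have h := lead_bound T x hx ∅ (by simp) {i₁} (by simp [h1]) (by simpa using hspan') m
      have e : (n : ℝ) - (({i₁} : Finset (Fin n)).card : ℝ) - 1 = (n : ℝ) - 2 := by
        rw [Finset.card_singleton]
        push_cast
        ring
      rw [e] at h
      exact h
  · push Not at hone
    have h0 := hmin (fun _ => 0) (by simpa using zero_sol T hone)
    simp only [Complex.ofReal_zero, zero_mul, norm_zero] at h0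
    have h1 : ‖x m‖ ^ 2 ≤ 0 := by
      refine le_trans hle (le_trans h0 (le_of_eq ?_))
      simp
    have h2 : ‖x m‖ = 0 := by
      have := sq_nonneg ‖x m‖
      exact pow_eq_zero_iff (n := 2) (by norm_num) |>.1 (le_antisymm h1 this)
    rw [h2]
    positivity

end Pool.Agent.Results.MP_e336e1_al.TameMinimalNorm
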